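import Mathlib
import Pool.Agent.H17.Ell15

namespace Pool.Agent.Results.MP_86855d_nt.NowhereDense

open Pool.Agent.H17.Ell15 WeierstrassCurve

/-- the `p`-adic topology of the projective plane: the quotient topology from nonzero vectors -/
@[reducible] noncomputable def planeTop (p : ℕ) [Fact p.Prime] :
    TopologicalSpace (Projectivization ℚ_[p] (Fin 3 → ℚ_[p])) :=
  TopologicalSpace.coinduced (Projectivization.mk' ℚ_[p]) inferInstance

/-- the points of the projective Weierstrass cubic over `ℚ_p` -/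
def localPoints (E : WeierstrassCurve ℚ) (p : ℕ) [Fact p.Prime] :
    Set (Projectivization ℚ_[p] (Fin 3 → ℚ_[p])) :=
  {P | (E.baseChange ℚ_[p]).toProjective.Equation P.rep}

/-- the rational points of the projective Weierstrass cubic, seen in the plane over `ℚ_p` -/
def rationalPoints (E : WeierstrassCurve ℚ) (p : ℕ) [Fact p.Prime] :
    Set (Projectivization ℚ_[p] (Fin 3 → ℚ_[p])) :=
  {P | ∃ v : Fin 3 → ℚ, E.toProjective.Equation v ∧
    ∃ h : (fun i => (v i : ℚ_[p])) ≠ 0, P = Projectivization.mk ℚ_[p] (fun i => (v i : ℚ_[p])) h}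

lemma ult {p : ℕ} [Fact p.Prime] {a b : ℚ_[p]} (ha : ‖a‖ < 1) (hb : ‖b‖ < 1) : ‖a + b‖ < 1 :=
  (IsUltrametricDist.norm_add_le_max a b).trans_lt (max_lt ha hb)

lemma mul_lt {p : ℕ} [Fact p.Prime] {a b : ℚ_[p]} (ha : ‖a‖ < 1) (hb : ‖b‖ ≤ 1) : ‖a * b‖ < 1 := by
  rw [norm_mul]; nlinarith [norm_nonneg a, norm_nonneg b]

/-- the obstruction at the two primes of multiplicative reduction -/
lemma bad (l k : ℕ) [hl : Fact l.Prime] (hk : k.Prime) (hlk : l * k = 221) (n a : ℤ)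
    (hn : (n : ZMod l) ≠ 0) (ha : ((n ^ 2 - 15 * n + 1 - a ^ 2 : ℤ) : ZMod l) = 0)
    (hk0 : (k : ZMod l) ≠ 0) (h0 : ((2 * n - 15 + 2 * a : ℤ) : ZMod l) ≠ 0)
    (h1 : ∀ u : ZMod l, ∀ c ∈ ({1, -1, (k : ℤ), -(k : ℤ)} : Finset ℤ),
      (c : ZMod l) * u ^ 2 ≠ ((2 * n - 15 + 2 * a : ℤ) : ZMod l))
    (x y : ℚ) (h : y ^ 2 = x ^ 3 - 15 * x ^ 2 + x) : ¬ ‖(x : ℚ_[l]) - n‖ < 1 := by
  intro hx
  obtain ⟨t, ht⟩ := xsq x y h
  have hn1 := norm_unit n hn
  have hx1 : ‖(x : ℚ_[l])‖ ≤ 1 := by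
    have := IsUltrametricDist.norm_add_le_max ((x : ℚ_[l]) - n) (n : ℚ_[l])
    rw [sub_add_cancel] at this
    exact this.trans (max_le hx.le hn1.le)
  have ht0 : t ≠ 0 := by
    rintro rfl
    rw [ht] at hx
    simp [hn1] at hx
  have key : ∀ w : ℚ, w ^ 2 = x ^ 2 - 15 * x + 1 → ¬ ‖(w : ℚ_[l]) - a‖ < 1 := by
    intro w hw hwa
    set X : ℚ := 2 * x - 15 + 2 * w with hX
    have hXn : ‖(X : ℚ_[l]) - (2 * n - 15 + 2 * a : ℤ)‖ < 1 := by
      have : (X : ℚ_[l]) - (2 * n - 15 + 2 * a : ℤ) =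
          ((x : ℚ_[l]) - n) * (2 : ℤ) + ((w : ℚ_[l]) - a) * (2 : ℤ) := by
        rw [hX]; push_cast; ring
      rw [this]
      exact ult (mul_lt hx (Padic.norm_int_le_one _)) (mul_lt hwa (Padic.norm_int_le_one _))
    have hnum : ¬ (l : ℤ) ∣ X.num := by
      intro hd
      have e1 : ‖((X.num : ℤ) : ℚ_[l])‖ < 1 := Padic.norm_intCast_lt_one_iff.2 hd
      have e2 : ((X.num : ℤ) : ℚ_[l]) = (X : ℚ_[l]) * ((X.den : ℤ) : ℚ_[l]) := by
        have := Rat.mul_den_eq_num X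
        exact_mod_cast (congrArg (fun q : ℚ => (q : ℚ_[l])) this).symm
      have e3 : ‖((X.den : ℤ) : ℚ_[l])‖ = 1 := by
        refine le_antisymm (Padic.norm_int_le_one _) (not_lt.1 fun h3 => ?_)
        have h4 := Padic.norm_intCast_lt_one_iff.1 h3
        have := (cop X).isUnit_of_dvd' hd h4
        exact (Nat.prime_iff_prime_int.1 hl.out).not_isUnit this
      rw [e2, norm_mul, e3, mul_one] at e1
      have e4 := ult e1 (show ‖-((X : ℚ_[l]) - (2 * n - 15 + 2 * a : ℤ))‖ < 1 by rwa [norm_neg])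
      rw [neg_sub, add_sub_cancel, norm_unit _ h0] at e4
      exact lt_irrefl _ e4
    have hlk' : (l : ℚ) * k = 221 := by exact_mod_cast hlk
    obtain ⟨r, hr⟩ := Xclass l k hl.out hk X (2 * t * X) (by
      rw [hlk', mul_pow, mul_pow, ← ht, hX]
      linear_combination (4 * (2 * x - 15 + 2 * w)) * hw) hnum
    have fin : ∀ c ∈ ({1, -1, (k : ℤ), -(k : ℤ)} : Finset ℤ), X ≠ c * r ^ 2 := by
      intro c hc hcX
      have hc0 : (c : ZMod l) ≠ 0 := by
        simp only [Finset.mem_insert, Finset.mem_singleton] at hc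
        rcases hc with rfl | rfl | rfl | rfl <;> simp [hk0]
      obtain ⟨u, hu⟩ := red (p := l) (r : ℚ_[l]) c _ (norm_unit c hc0) (by
        have e : ((c * r ^ 2 : ℚ) : ℚ_[l]) = (c : ℚ_[l]) * (r : ℚ_[l]) ^ 2 := by push_cast; rfl
        rwa [hcX, e] at hXn)
      exact h1 u c hc hu
    rcases hr with hr | hr | hr | hr
    · exact fin 1 (by simp) (by simpa using hr)
    · exact fin (-1) (by simp) (by simpa using hr)
    · exact fin k (by simp) (by simpa using hr)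
    · exact fin (-k) (by simp) (by simpa using hr)
  have hw : (y / t) ^ 2 = x ^ 2 - 15 * x + 1 := by
    rw [div_pow, h, ← ht]
    have : x ≠ 0 := by rw [ht]; positivity
    field_simp
  have k1 := key (y / t) hw
  have k2 := key (-(y / t)) (by rw [neg_sq, hw])
  set w : ℚ_[l] := ((y / t : ℚ) : ℚ_[l]) with hwd
  have hw' : w ^ 2 = (x : ℚ_[l]) ^ 2 - 15 * x + 1 := by
    rw [hwd]; exact_mod_cast congrArg (fun q : ℚ => (q : ℚ_[l])) hw
  have e : (w - a) * (-w - a) = -(((x : ℚ_[l]) - n) * (x + (n - 15 : ℤ)) +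
      ((n ^ 2 - 15 * n + 1 - a ^ 2 : ℤ) : ℚ_[l])) := by
    push_cast; linear_combination -hw'
  have e2 : ‖(w - a) * (-w - a)‖ < 1 := by
    rw [e, norm_neg]
    exact ult (mul_lt hx ((IsUltrametricDist.norm_add_le_max _ _).trans
      (max_le hx1 (Padic.norm_int_le_one _)))) (norm_lt _ ha)
  rw [Rat.cast_neg, ← hwd] at k2
  rw [norm_mul] at e2
  nlinarith [not_lt.1 k1, not_lt.1 k2]

instance f13 : Fact (Nat.Prime 13) := ⟨by norm_num⟩

instance f17 : Fact (Nat.Prime 17) := ⟨by norm_num⟩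

lemma loc2 : ∃ x0 y0 : ℚ_[2], ∃ r : ℝ, 0 < r ∧
    y0 ^ 2 = x0 ^ 3 - 15 * x0 ^ 2 + x0 ∧
    ∀ x y : ℚ, y ^ 2 = x ^ 3 - 15 * x ^ 2 + x → ¬ ‖(x : ℚ_[2]) - x0‖ < r := by
  have n2 : ‖(2 : ℚ_[2])‖ = 1 / 2 := by simpa using Padic.norm_p (p := 2)
  obtain ⟨z, hz, -⟩ := sqrt_lift (p := 2) 505 1 (by
    have e : ((1 ^ 2 - 505 : ℤ) : ℚ_[2]) = 2 ^ 3 * ((-63 : ℤ) : ℚ_[2]) := by norm_num
    have := Padic.norm_int_le_one (p := 2) (-63)
    rw [e, norm_mul, norm_pow, show ((2 * 1 : ℤ) : ℚ_[2]) = 2 by norm_num, n2]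
    norm_num at this ⊢
    linarith)
  refine ⟨20, 2 * z, 1 / 16, by norm_num, by rw [mul_pow, hz]; norm_num, fun x y h hx => ?_⟩
  obtain ⟨t, rfl⟩ := xsq x y h
  set s : ℚ_[2] := (t : ℚ_[2]) / 2 with hs
  have e1 : ((t ^ 2 : ℚ) : ℚ_[2]) - 20 = 2 ^ 2 * (s ^ 2 - 5) := by
    rw [hs]; push_cast; ring
  rw [e1, norm_mul, norm_pow, n2] at hx
  have h5 : ‖s ^ 2 - 5‖ < 1 / 4 := by linarith
  -- s is odd, s = 1 + 2 u, u (u + 1) = 1 modulo 2
  set u : ℚ_[2] := (s - 1) / 2 with hu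
  have e2 : s ^ 2 - 5 = 2 ^ 2 * (u ^ 2 + u - 1) := by rw [hu]; ring
  rw [e2, norm_mul, norm_pow, n2] at h5
  have h6 : ‖u ^ 2 + u - 1‖ < 1 := by linarith
  have h7 : ‖u‖ ≤ 1 := by
    by_contra hc
    push Not at hc
    have a1 : ‖u ^ 2‖ ≤ max ‖u ^ 2 + u - 1‖ ‖1 - u‖ := by
      have := IsUltrametricDist.norm_add_le_max (u ^ 2 + u - 1) (1 - u)
      rwa [show u ^ 2 + u - 1 + (1 - u) = u ^ 2 by ring] at this
    have a2 : ‖1 - u‖ ≤ ‖u‖ := by
      have := IsUltrametricDist.norm_add_le_max 1 (-u)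
      rw [norm_neg, norm_one, max_eq_right hc.le] at this
      simpa [sub_eq_add_neg] using this
    rw [norm_pow] at a1
    rcases le_max_iff.1 a1 with a | a <;> nlinarith
  let w : ℤ_[2] := ⟨u, h7⟩
  have h3 : ‖w ^ 2 + w - 1‖ < 1 := by
    rw [PadicInt.norm_def]; push_cast; exact h6
  have h4 : PadicInt.toZMod (p := 2) (w ^ 2 + w - 1) = 0 := by
    rw [← RingHom.mem_ker, PadicInt.ker_toZMod, IsLocalRing.mem_maximalIdeal,
      PadicInt.mem_nonunits]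
    exact h3
  rw [map_sub, map_add, map_pow, map_one] at h4
  generalize PadicInt.toZMod w = b at h4
  revert b; decide

lemma loc13 : ∃ x0 y0 : ℚ_[13], ∃ r : ℝ, 0 < r ∧
    y0 ^ 2 = x0 ^ 3 - 15 * x0 ^ 2 + x0 ∧
    ∀ x y : ℚ, y ^ 2 = x ^ 3 - 15 * x ^ 2 + x → ¬ ‖(x : ℚ_[13]) - x0‖ < r := by
  obtain ⟨z, hz, -⟩ := sqrt_lift' (p := 13) (-17) 3 (by decide) (by decide)
  refine ⟨((-1 : ℤ) : ℚ_[13]), z, 1, one_pos, by rw [hz]; norm_num,
    bad 13 17 (by norm_num) rfl (-1) (-2) (by decide) (by decide) (by decide) (by decide)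
      (by decide)⟩

lemma loc17 : ∃ x0 y0 : ℚ_[17], ∃ r : ℝ, 0 < r ∧
    y0 ^ 2 = x0 ^ 3 - 15 * x0 ^ 2 + x0 ∧
    ∀ x y : ℚ, y ^ 2 = x ^ 3 - 15 * x ^ 2 + x → ¬ ‖(x : ℚ_[17]) - x0‖ < r := by
  obtain ⟨z, hz, -⟩ := sqrt_lift' (p := 17) (-50) 1 (by decide) (by decide)
  refine ⟨((2 : ℤ) : ℚ_[17]), z, 1, one_pos, by rw [hz]; norm_num,
    bad 17 13 (by norm_num) rfl 2 3 (by decide) (by decide) (by decide) (by decide)
      (by decide)⟩

lemma loc (p : ℕ) [hp : Fact p.Prime] : ∃ x0 y0 : ℚ_[p], ∃ r : ℝ, 0 < r ∧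
    y0 ^ 2 = x0 ^ 3 - 15 * x0 ^ 2 + x0 ∧
    ∀ x y : ℚ, y ^ 2 = x ^ 3 - 15 * x ^ 2 + x → ¬ ‖(x : ℚ_[p]) - x0‖ < r := by
  by_cases h2 : p = 2
  · subst h2; exact loc2
  by_cases h13 : p = 13
  · subst h13; exact loc13
  by_cases h17 : p = 17
  · subst h17; exact loc17
  have c2 : (2 : ZMod p) ≠ 0 := fun h => h2 (by
    have : ((2 : ℕ) : ZMod p) = 0 := by exact_mod_cast h
    rw [ZMod.natCast_eq_zero_iff] at this
    exact (Nat.prime_dvd_prime_iff_eq hp.out Nat.prime_two).1 this)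
  have c221 : (221 : ZMod p) ≠ 0 := fun h => by
    have : ((13 * 17 : ℕ) : ZMod p) = 0 := by exact_mod_cast h
    rw [ZMod.natCast_eq_zero_iff] at this
    rcases (Nat.Prime.dvd_mul hp.out).1 this with h | h
    · exact h13 ((Nat.prime_dvd_prime_iff_eq hp.out (by norm_num)).1 h)
    · exact h17 ((Nat.prime_dvd_prime_iff_eq hp.out (by norm_num)).1 h)
  obtain ⟨x1, hx1, y1, hy1⟩ := count c2 c221
  obtain ⟨n, rfl⟩ := ZMod.intCast_surjective x1
  obtain ⟨m, rfl⟩ := ZMod.intCast_surjective y1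
  have fin : ∀ x y : ℚ, y ^ 2 = x ^ 3 - 15 * x ^ 2 + x → ¬ ‖(x : ℚ_[p]) - n‖ < 1 := by
    intro x y h hx
    obtain ⟨t, rfl⟩ := xsq x y h
    obtain ⟨u, hu⟩ := red (p := p) (t : ℚ_[p]) 1 n (by simp) (by simpa using hx)
    exact hx1 ⟨u, by rw [← hu]; push_cast; ring⟩
  by_cases hm : (m : ZMod p) = 0
  · have hn0 : (n : ZMod p) ≠ 0 := fun h => hx1 (by rw [h]; exact IsSquare.zero)
    have hg : (n : ZMod p) ^ 2 - 15 * n + 1 = 0 :=
      mul_left_cancel₀ hn0 (by rw [hm] at hy1; linear_combination hy1)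
    have e1 : (2 * (n : ZMod p) - 15) ^ 2 = 221 := by linear_combination 4 * hg
    obtain ⟨z, hz, hz1⟩ := sqrt_lift' (p := p) 221 (2 * n - 15)
      (by push_cast; rw [e1]; simp) (by
        push_cast
        exact mul_ne_zero c2 fun h => c221 (by rw [← e1, h]; simp))
    have n2 : ‖((2 : ℤ) : ℚ_[p])‖ = 1 := norm_unit 2 (by exact_mod_cast c2)
    refine ⟨(15 + z) / 2, 0, 1, one_pos, ?_, fun x y h hx => fin x y h ?_⟩
    · push_cast at hz
      linear_combination (-(15 + z) / 8) * hz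
    · have e : (x : ℚ_[p]) - n = ((x : ℚ_[p]) - (15 + z) / 2) +
          (z - ((2 * n - 15 : ℤ) : ℚ_[p])) / ((2 : ℤ) : ℚ_[p]) := by push_cast; ring
      rw [e]
      exact ult hx (by rwa [norm_div, n2, div_one])
  · obtain ⟨z, hz, -⟩ := sqrt_lift' (p := p) (n ^ 3 - 15 * n ^ 2 + n) m
      (by push_cast; rw [hy1]; ring) (by push_cast; exact mul_ne_zero c2 hm)
    exact ⟨n, z, 1, one_pos, by rw [hz]; push_cast; ring, fin⟩

lemma eqn (x y : ℚ) : (⟨0, -15, 0, 1, 0⟩ : WeierstrassCurve ℚ).toAffine.Equation x y ↔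
    y ^ 2 = x ^ 3 - 15 * x ^ 2 + x := by
  rw [Affine.equation_iff]
  simp [sub_eq_add_neg]

lemma dbl (x y : ℚ) (h : (⟨0, -15, 0, 1, 0⟩ : WeierstrassCurve ℚ).toAffine.Nonsingular x y)
    (hx : 1 < ‖(x : ℚ_[2])‖) : ∃ x' y' h', Affine.Point.some x y h + Affine.Point.some x y h =
      Affine.Point.some x' y' h' ∧ ‖(x' : ℚ_[2])‖ = 4 * ‖(x : ℚ_[2])‖ := by
  have he := (eqn x y).1 h.1
  have n2 : ‖(2 : ℚ_[2])‖ = 1 / 2 := by simpa using Padic.norm_p (p := 2)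
  set z : ℚ_[2] := (x : ℚ_[2]) with hz
  have a1 : ‖z ^ 2 - 1‖ = ‖z‖ ^ 2 := by
    rw [sub_eq_add_neg, IsUltrametricDist.norm_add_eq_max_of_norm_ne_norm, norm_neg, norm_one,
      norm_pow, max_eq_left (by nlinarith)]
    rw [norm_neg, norm_one, norm_pow]; nlinarith
  have a0 : ‖-15 * z + 1‖ ≤ ‖z‖ := by
    refine (IsUltrametricDist.norm_add_le_max _ _).trans (max_le ?_ (by simpa using hx.le))
    have := Padic.norm_int_le_one (p := 2) (-15)
    rw [norm_mul]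
    push_cast at this
    nlinarith
  have a2 : ‖z ^ 2 + (-15 * z + 1)‖ = ‖z‖ ^ 2 := by
    rw [IsUltrametricDist.norm_add_eq_max_of_norm_ne_norm, norm_pow, max_eq_left (by nlinarith)]
    rw [norm_pow]; nlinarith
  have a3 : ‖(y : ℚ_[2])‖ ^ 2 = ‖z‖ ^ 3 := by
    have : (y : ℚ_[2]) ^ 2 = z * (z ^ 2 + (-15 * z + 1)) := by
      have := congrArg (fun q : ℚ => (q : ℚ_[2])) he
      push_cast at this
      rw [this]; ring
    rw [← norm_pow, this, norm_mul, a2]; ring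
  have hy0 : y ≠ 0 := by
    rintro rfl
    have : (0 : ℝ) < ‖z‖ ^ 3 := by positivity
    simp [← a3] at this
  have hy : y ≠ (⟨0, -15, 0, 1, 0⟩ : WeierstrassCurve ℚ).toAffine.negY x y := by
    simp only [Affine.negY]
    intro h
    apply hy0
    linarith
  refine ⟨_, _, _, Affine.Point.add_self_of_Y_ne hy, ?_⟩
  have e : (⟨0, -15, 0, 1, 0⟩ : WeierstrassCurve ℚ).toAffine.addX x x
      ((⟨0, -15, 0, 1, 0⟩ : WeierstrassCurve ℚ).toAffine.slope x x y y) =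
      (x ^ 2 - 1) ^ 2 / (2 ^ 2 * y ^ 2) := by
    rw [Affine.slope_of_Y_ne rfl hy]
    simp only [Affine.addX, Affine.negY]
    have : y - (-y - 0 * x - 0) = 2 * y := by ring
    rw [this]
    field_simp
    linear_combination (60 - 8 * x) * he
  rw [e]
  push_cast
  rw [norm_div, norm_mul, norm_pow, norm_pow, norm_pow, a1, a3, n2]
  field_simp
  norm_num

theorem result : ∃ E : WeierstrassCurve ℚ, E.IsElliptic ∧ 0 < Module.rank ℤ E.toAffine.Point ∧
    ∀ (p : ℕ) [Fact p.Prime],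
      ¬ localPoints E p ⊆ @closure _ (planeTop p) (rationalPoints E p) := by
  have hE : (⟨0, -15, 0, 1, 0⟩ : WeierstrassCurve ℚ).IsElliptic := ⟨by
    rw [isUnit_iff_ne_zero]
    norm_num [WeierstrassCurve.Δ, b₂, b₄, b₆, b₈]⟩
  refine ⟨⟨0, -15, 0, 1, 0⟩, hE, ?_, ?_⟩
  · rw [pos_iff_ne_zero, Ne, rank_eq_zero_iff]
    intro hc
    have h0 : (⟨0, -15, 0, 1, 0⟩ : WeierstrassCurve ℚ).toAffine.Nonsingular (9025 / 576)
        (185345 / 13824) := Affine.equation_iff_nonsingular.1 ((eqn _ _).2 (by norm_num))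
    set P := Affine.Point.some _ _ h0
    have n2 : ‖(2 : ℚ_[2])‖ = 1 / 2 := by simpa using Padic.norm_p (p := 2)
    have n0 : ‖((9025 / 576 : ℚ) : ℚ_[2])‖ = 64 := by
      have e : ((9025 / 576 : ℚ) : ℚ_[2]) = ((9025 : ℤ) : ℚ_[2]) / (2 ^ 6 * ((9 : ℤ) : ℚ_[2])) := by
        push_cast; norm_num
      rw [e, norm_div, norm_mul, norm_pow, n2, norm_unit 9025 (by decide), norm_unit 9 (by decide)]
      norm_num
    have hk : ∀ k : ℕ, ∃ (x y : ℚ) (h : (⟨0, -15, 0, 1, 0⟩ : WeierstrassCurve ℚ).toAffine.Nonsingular x y),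
        2 ^ k • P = Affine.Point.some x y h ∧
        ‖(x : ℚ_[2])‖ = 4 ^ k * 64 := by
      intro k
      induction k with
      | zero => exact ⟨_, _, h0, by simp [P], by rw [n0]; simp⟩
      | succ k ih =>
        obtain ⟨x, y, h, e, hx⟩ := ih
        obtain ⟨x', y', h', e', hx'⟩ := dbl x y h (by
          rw [hx]; nlinarith [one_le_pow₀ (M₀ := ℝ) (a := 4) (by norm_num) (n := k)])
        exact ⟨x', y', h', by rw [pow_succ', mul_smul, e, two_smul, e'], by rw [hx', hx]; ring⟩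
    obtain ⟨a, ha, haP⟩ := hc P
    have hfin : IsOfFinAddOrder P := isOfFinAddOrder_iff_zsmul_eq_zero.2 ⟨a, ha, haP⟩
    refine Set.infinite_of_injective_forall_mem (f := fun k : ℕ => 2 ^ k • P) (fun i j hij => ?_)
      (fun k => (AddSubmonoid.mem_multiples_iff _ _).2 ⟨2 ^ k, rfl⟩) hfin.finite_multiples
    obtain ⟨x, y, h, e, hx⟩ := hk i
    obtain ⟨x', y', h', e', hx'⟩ := hk j
    simp only [e, e', Affine.Point.some.injEq] at hij
    rw [hij.1, hx'] at hx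
    have : (4 : ℝ) ^ j = 4 ^ i := by linarith
    exact (pow_right_injective₀ (by norm_num) (by norm_num) this).symm
  · intro p _ hsub
    obtain ⟨x0, y0, r, hr, h0, hfin⟩ := loc p
    let _ := planeTop p
    have hv : (![x0, y0, 1] : Fin 3 → ℚ_[p]) ≠ 0 := fun h => by simpa using congrFun h 2
    let U : Set (Projectivization ℚ_[p] (Fin 3 → ℚ_[p])) :=
      {P | ‖P.rep 0 - x0 * P.rep 2‖ < r * ‖P.rep 2‖}
    have hU : ∀ (v : Fin 3 → ℚ_[p]) (h : v ≠ 0), Projectivization.mk ℚ_[p] v h ∈ U ↔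
        ‖v 0 - x0 * v 2‖ < r * ‖v 2‖ := by
      intro v h
      obtain ⟨a, ha⟩ := Projectivization.exists_smul_eq_mk_rep ℚ_[p] v h
      have ha0 : 0 < ‖(a : ℚ_[p])‖ := norm_pos_iff.2 a.ne_zero
      simp only [U, Set.mem_ofPred_eq, ← ha, Units.smul_def, Pi.smul_apply, smul_eq_mul]
      rw [mul_left_comm, ← mul_sub, norm_mul, norm_mul, mul_left_comm, mul_lt_mul_iff_right₀ ha0]
    have hUo : IsOpen U := by
      rw [isOpen_coinduced]
      have : Projectivization.mk' ℚ_[p] ⁻¹' U =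
          {v : {v : Fin 3 → ℚ_[p] // v ≠ 0} | ‖v.1 0 - x0 * v.1 2‖ < r * ‖v.1 2‖} := by
        ext v
        exact hU v.1 v.2
      rw [this]
      have c : ∀ i, Continuous fun v : {v : Fin 3 → ℚ_[p] // v ≠ 0} => v.1 i := fun i =>
        (continuous_apply i).comp continuous_subtype_val
      exact isOpen_lt ((c 0).sub (continuous_const.mul (c 2))).norm
        (continuous_const.mul (c 2).norm)
    have hP : Projectivization.mk ℚ_[p] _ hv ∈ localPoints ⟨0, -15, 0, 1, 0⟩ p := by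
      obtain ⟨a, ha⟩ := Projectivization.exists_smul_eq_mk_rep ℚ_[p] _ hv
      simp only [localPoints, Set.mem_ofPred_eq, ← ha, Units.smul_def]
      rw [Projective.equation_smul _ a.isUnit, Projective.equation_iff]
      simp
      linear_combination h0
    obtain ⟨Q, hQU, v, hve, hv0, rfl⟩ := mem_closure_iff.1 (hsub hP) U hUo
      ((hU _ hv).2 (by simpa using hr))
    rw [hU] at hQU
    have hz : v 2 ≠ 0 := fun h => by
      simp only [h, Rat.cast_zero, mul_zero, norm_zero] at hQU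
      exact absurd hQU (not_lt.2 (norm_nonneg _))
    have hz' : (v 2 : ℚ_[p]) ≠ 0 := by exact_mod_cast hz
    refine hfin (v 0 / v 2) (v 1 / v 2)
      ((eqn _ _).1 ((Projective.equation_of_Z_ne_zero hz).1 hve)) ?_
    have e : ((v 0 / v 2 : ℚ) : ℚ_[p]) - x0 = ((v 0 : ℚ_[p]) - x0 * v 2) / v 2 := by
      push_cast; field_simp
    rw [e, norm_div, div_lt_iff₀ (norm_pos_iff.2 hz')]
    exact hQU

end Pool.Agent.Results.MP_86855d_nt.NowhereDense
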